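import Mathlib

/-!
# The criterion for 2-SAT, in terms of an implication graph
-/

namespace Pool.Agent.R553.HP

open Relation

section

variable {X : Type*} {S : List X} {neg : X → X} {r : X → X → Prop}

/-- A set is closed under the implications. -/
def Clos (S : List X) (r : X → X → Prop) (T : Set X) : Prop :=
  ∀ x ∈ T, ∀ y ∈ S, r x y → y ∈ T

/-- Reachability. -/
def Rch (S : List X) (r : X → X → Prop) : X → X → Prop :=
  ReflTransGen (fun a b => r a b ∧ b ∈ S)

theorem rch_neg (hneg : ∀ x ∈ S, neg x ∈ S) (hnn : ∀ x ∈ S, neg (neg x) = x)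
    (hr : ∀ x ∈ S, ∀ y ∈ S, r x y → r (neg y) (neg x)) {x y : X} (hx : x ∈ S)
    (h : Rch S r x y) : y ∈ S ∧ Rch S r (neg y) (neg x) := by
  induction h with
  | refl => exact ⟨hx, ReflTransGen.refl⟩
  | tail hab hbc ih =>
    refine ⟨hbc.2, ReflTransGen.head ⟨hr _ ih.1 _ hbc.2 hbc.1, hneg _ ih.1⟩ ih.2⟩

theorem clos_rch {T : Set X} (hT : Clos S r T) {x y : X} (hx : x ∈ T) (h : Rch S r x y) :
    y ∈ T := by
  induction h with
  | refl => exact hx
  | tail _ hbc ih => exact hT _ ih _ hbc.2 hbc.1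

theorem twoSat_aux (hneg : ∀ x ∈ S, neg x ∈ S) (hnn : ∀ x ∈ S, neg (neg x) = x)
    (hr : ∀ x ∈ S, ∀ y ∈ S, r x y → r (neg y) (neg x))
    (h : ∀ x ∈ S, ¬ (Rch S r x (neg x) ∧ Rch S r (neg x) x)) (L : List X) (hL : L ⊆ S) :
    ∃ T : Set X, T ⊆ {x | x ∈ S} ∧ Clos S r T ∧ (∀ x ∈ T, neg x ∉ T) ∧
      ∀ x ∈ L, x ∈ T ∨ neg x ∈ T := by
  induction L with
  | nil => exact ⟨∅, by simp, fun x hx => hx.elim, fun x hx => hx.elim, by simp⟩
  | cons a L ih =>
    obtain ⟨T, hTS, hT, hTc, hTL⟩ := ih (fun x hx => hL (List.mem_cons_of_mem _ hx))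
    have haS : a ∈ S := hL List.mem_cons_self
    by_cases ha : a ∈ T ∨ neg a ∈ T
    · exact ⟨T, hTS, hT, hTc, by
        intro x hx
        rcases List.mem_cons.1 hx with rfl | hx
        · exact ha
        · exact hTL x hx⟩
    · push Not at ha
      obtain ⟨y, hyS, hyT, hyn, hyr, hay⟩ : ∃ y ∈ S, y ∉ T ∧ neg y ∉ T ∧ ¬ Rch S r y (neg y) ∧
          (y = a ∨ y = neg a) := by
        by_cases h1 : Rch S r a (neg a)
        · refine ⟨neg a, hneg a haS, ha.2, by rw [hnn a haS]; exact ha.1, fun h2 => ?_, Or.inr rfl⟩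
          rw [hnn a haS] at h2
          exact h a haS ⟨h1, h2⟩
        · exact ⟨a, haS, ha.1, ha.2, h1, Or.inl rfl⟩
      refine ⟨T ∪ {z | Rch S r y z}, ?_, ?_, ?_, ?_⟩
      · rintro z (hz | hz)
        · exact hTS hz
        · exact (rch_neg hneg hnn hr hyS hz).1
      · rintro x (hx | hx) z hz hxz
        · exact Or.inl (hT x hx z hz hxz)
        · exact Or.inr (ReflTransGen.tail hx ⟨hxz, hz⟩)
      · rintro x (hx | hx) (hx' | hx')
        · exact hTc x hx hx'
        · -- y reaches neg x, so x reaches neg y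
          obtain ⟨_, h2⟩ := rch_neg hneg hnn hr hyS hx'
          rw [hnn x (hTS hx)] at h2
          exact hyn (clos_rch hT hx h2)
        · obtain ⟨_, h2⟩ := rch_neg hneg hnn hr hyS hx
          exact hyn (clos_rch hT hx' h2)
        · obtain ⟨hxS, h2⟩ := rch_neg hneg hnn hr hyS hx
          exact hyr (ReflTransGen.trans hx' h2)
      · intro x hx
        rcases List.mem_cons.1 hx with rfl | hx
        · rcases hay with rfl | rfl
          · exact Or.inl (Or.inr ReflTransGen.refl)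
          · exact Or.inr (Or.inr ReflTransGen.refl)
        · rcases hTL x hx with h1 | h1
          · exact Or.inl (Or.inl h1)
          · exact Or.inr (Or.inl h1)

/-- The criterion for 2-SAT: `r x y` says that `x` and the negation of `y` exclude one another. -/
theorem twoSat (hneg : ∀ x ∈ S, neg x ∈ S) (hnn : ∀ x ∈ S, neg (neg x) = x)
    (hne : ∀ x ∈ S, neg x ≠ x)
    (hr : ∀ x ∈ S, ∀ y ∈ S, r x y → r (neg y) (neg x)) :
    (∃ T : Set X, (∀ x ∈ S, x ∈ T ∨ neg x ∈ T) ∧
      ∀ x ∈ S, ∀ y ∈ S, r x y → x ∈ T → neg y ∉ T) ↔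
    ∀ x ∈ S, ¬ (Rch S r x (neg x) ∧ Rch S r (neg x) x) := by
  constructor
  · rintro ⟨T, hT1, hT2⟩
    -- a reachable literal, from a true literal, is true, and its negation is not (if reached
    -- by a step)
    have key : ∀ x ∈ S, x ∈ T → ∀ z, Rch S r x z → z ∈ S ∧ z ∈ T ∧ (z = x ∨ neg z ∉ T) := by
      intro x hxS hxT z hz
      induction hz with
      | refl => exact ⟨hxS, hxT, Or.inl rfl⟩
      | tail _ hbc ih =>
        have h1 := hT2 _ ih.1 _ hbc.2 hbc.1 ih.2.1
        refine ⟨hbc.2, ?_, Or.inr h1⟩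
        rcases hT1 _ hbc.2 with h2 | h2
        · exact h2
        · exact absurd h2 h1
    intro x hxS ⟨h1, h2⟩
    rcases hT1 x hxS with hx | hx
    · obtain ⟨_, _, h3⟩ := key x hxS hx _ h1
      rcases h3 with h3 | h3
      · exact hne x hxS h3
      · rw [hnn x hxS] at h3
        exact h3 hx
    · obtain ⟨_, _, h3⟩ := key _ (hneg x hxS) hx _ h2
      rcases h3 with h3 | h3
      · exact hne x hxS h3.symm
      · exact h3 hx
  · intro h
    obtain ⟨T, hTS, hT, hTc, hTL⟩ := twoSat_aux hneg hnn hr h S (fun x hx => hx)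
    exact ⟨T, hTL, fun x hx y hy hxy hxT => hTc y (hT x hxT y hy hxy)⟩

end

end Pool.Agent.R553.HP
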